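import Pool.Agent.Q35.ZC.Stm

/-!
# The sequence of the points `P₀ + k (P₀ - ι P₀)`
-/

set_option autoImplicit false

open Polynomial Pool.Agent.Y720.MZ Pool.Agent.Q35.ZC WeierstrassCurve

namespace Pool.Agent.Q5.ZC

lemma smul_inj0 {A : Type*} [AddGroup A] {P : A} (hP : ∀ n : ℕ, n ≠ 0 → n • P ≠ 0) {m n : ℕ} (hmn : m < n)
    (h : m • P = n • P) : False := by
  obtain ⟨d, rfl⟩ := Nat.exists_eq_add_of_lt hmn
  rw [add_assoc, add_nsmul] at h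
  exact hP (d + 1) (by omega) (by simpa using h.symm)

theorem seq : S_FAC → S_INV → S_TAN → S_INJ → S_SEQ := by
  intro hFAC hINV hTAN hINJ F _ _ _ θ hθ h hP
  obtain ⟨J1, J2, J3⟩ := hINJ F θ hθ
  set P : Pt (tA θ) (tB θ) (tC θ) := .some _ _ h with hPd
  have ex : ∀ k : ℕ, ∃ (x y : F) (h' : (cv (tA θ) (tB θ) (tC θ)).toAffine.Nonsingular x y),
      (k + 1) • P = .some x y h' := by
    intro k
    have h1 := hP (k + 1) (by omega)
    rcases hk : (k + 1) • P with _ | ⟨x, y, h'⟩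
    · exact absurd hk h1
    · exact ⟨x, y, h', rfl⟩
  choose x y hxy hk using ex
  have e0 : x 0 = tX θ ∧ y 0 = tY θ := by
    have h1 := hk 0
    rw [zero_add, one_smul, hPd, Affine.Point.some.injEq] at h1
    exact ⟨h1.1.symm, h1.2.symm⟩
  have eqn : ∀ k, y k ^ 2 = x k ^ 3 + tA θ * x k ^ 2 + tB θ * x k + tC θ := fun k => (cv_ns.1 (hxy k)).1
  have eqn' : ∀ k, (-y k) ^ 2 = x k ^ 3 + tA θ * x k ^ 2 + tB θ * x k + tC θ := by
    intro k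
    rw [neg_sq]
    exact eqn k
  have ha : ∀ k, y k ≠ 0 := by
    intro k h0
    have h1 := dbl_zero (hxy k) (by rw [h0, mul_zero])
    rw [← hk k, ← add_nsmul] at h1
    exact hP _ (by omega) h1
  have hb : ∀ k l, k < l → x k ≠ x l := by
    intro k l hkl hx
    have h1 : ∀ (X : F) (h1 : (cv (tA θ) (tB θ) (tC θ)).toAffine.Nonsingular X (y k)), x l = X →
        (.some X (y k) h1 : Pt (tA θ) (tB θ) (tC θ)) = (k + 1) • P → False := by
      intro X h1 hX hh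
      subst hX
      rcases eq_or_neg h1 (hxy l) with h2 | h2
      · rw [hh, ← hk l] at h2
        exact smul_inj0 hP (by omega) h2
      · rw [hh, ← hk l, eq_neg_iff_add_eq_zero, ← add_nsmul] at h2
        exact hP _ (by omega) h2
    exact h1 (x k) (hxy k) hx.symm (hk k).symm
  have hb0 : ∀ k, x (k + 1) ≠ tX θ := by
    intro k h1
    rw [← e0.1] at h1
    exact hb 0 (k + 1) (by omega) h1.symm
  -- negatives
  have hneg : ∀ k, ∃ h', -((k + 1) • P) = (.some (x k) (-y k) h' : Pt (tA θ) (tB θ) (tC θ)) := by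
    intro k
    rw [hk k]
    exact neg_mk (hxy k)
  have hY : tY θ ≠ 0 := by
    rw [← e0.2]
    exact ha 0
  -- the points
  set Q : ℕ → Option (F × F) := fun k =>
    if dq θ (x k) (-y k) = 0 then none else some (tq θ (x k) (-y k), -yq θ (x k) (-y k)) with hQ
  have Qn : ∀ k, Q k = none ↔ dq θ (x k) (-y k) = 0 := by
    intro k
    rw [hQ]
    dsimp only
    split_ifs with h1
    · exact ⟨fun _ => h1, fun _ => rfl⟩
    · exact ⟨fun h2 => absurd h2 (by simp), fun h2 => absurd h2 h1⟩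
  have Qs : ∀ k a, Q k = some a → dq θ (x k) (-y k) ≠ 0 ∧ a.1 = tq θ (x k) (-y k) ∧
      a.2 = -yq θ (x k) (-y k) := by
    intro k a h1
    rw [hQ] at h1
    dsimp only at h1
    split_ifs at h1 with h2
    rw [Option.some.injEq] at h1
    subst h1
    exact ⟨h2, rfl, rfl⟩
  have Qv : ∀ k, dq θ (x k) (-y k) ≠ 0 → Q k = some (tq θ (x k) (-y k), -yq θ (x k) (-y k)) := by
    intro k h1
    rw [hQ]
    dsimp only
    rw [if_neg h1]
  -- (c)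
  have hc : ∀ j, (dq θ (x (j + 2)) (-y (j + 2)) = 0 ↔ dq θ (x (j + 1)) (y (j + 1)) = 0) ∧
      (dq θ (x (j + 1)) (y (j + 1)) ≠ 0 → tq θ (x (j + 2)) (-y (j + 2)) = tq θ (x (j + 1)) (y (j + 1)) ∧
        yq θ (x (j + 2)) (-y (j + 2)) = -yq θ (x (j + 1)) (y (j + 1))) := by
    intro j
    obtain ⟨h', hn⟩ := hneg (j + 2)
    refine hINV F θ hθ (x (j + 1)) (y (j + 1)) (x (j + 2)) (-y (j + 2)) (hxy (j + 1)) h h' (hb0 j) (hb0 (j + 1)) ?_
    rw [← hn, ← hk (j + 1), ← hPd, ← succ_nsmul]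
  have Cn : ∀ j, Q (j + 2) = none ↔ dq θ (x (j + 1)) (y (j + 1)) = 0 := by
    intro j
    rw [Qn, (hc j).1]
  have Cv : ∀ j, dq θ (x (j + 1)) (y (j + 1)) ≠ 0 →
      Q (j + 2) = some (tq θ (x (j + 1)) (y (j + 1)), yq θ (x (j + 1)) (y (j + 1))) := by
    intro j h1
    have h2 : dq θ (x (j + 2)) (-y (j + 2)) ≠ 0 := fun h3 => h1 ((hc j).1.1 h3)
    obtain ⟨h3, h4⟩ := (hc j).2 h1
    rw [Qv _ h2, h3, h4, neg_neg]
  -- Q 0
  obtain ⟨K1, K2, K3, K4⟩ := J3 hY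
  have Q0 : Q 0 = some (0, θ.1) := by
    have h1 : dq θ (x 0) (-y 0) ≠ 0 := by rw [e0.1, e0.2]; exact K1
    rw [Qv 0 h1, e0.1, e0.2, K2, K3, neg_neg]
  -- TAN
  obtain ⟨T1, T2, T3⟩ : (dq θ (x 1) (-y 1) = 0 ↔ tX θ ^ 2 = 4 * θ.1 ^ 2 * θ.2 3) ∧
      (tX θ ^ 2 ≠ 4 * θ.1 ^ 2 * θ.2 3 → (gp θ (tX θ)).eval (tq θ (x 1) (-y 1)) = -yq θ (x 1) (-y 1) ∧
        ∃ κ : F, κ ≠ 0 ∧ gp θ (tX θ) ^ 2 - qp θ = C κ * X ^ 2 * X * (X - C (tq θ (x 1) (-y 1)))) ∧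
      (tX θ ^ 2 = 4 * θ.1 ^ 2 * θ.2 3 →
        ∃ κ : F, κ ≠ 0 ∧ gp θ (tX θ) ^ 2 - qp θ = C κ * X ^ 2 * X) := by
    obtain ⟨h', hn⟩ := hneg 1
    refine hTAN F θ hθ (x 1) (-y 1) h h' hY (hb0 0) ?_
    rw [← hn, ← hPd, show (1 + 1 : ℕ) = 2 from rfl, two_nsmul]
  refine ⟨x, Q, ⟨Q0, ?_, ?_, ?_, ?_, ?_, ?_⟩, ?_, ?_⟩
  · -- on
    intro k a h1
    obtain ⟨h2, h3, h4⟩ := Qs k a h1
    rw [h3, h4, neg_sq]
    exact (J1 _ _ (eqn' k) h2).1
  · -- norm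
    intro k
    rcases k with _ | k
    · rw [Q0, e0.1]
      by_cases h1 : tX θ ^ 2 = 4 * θ.1 ^ 2 * θ.2 3
      · obtain ⟨κ, h2, h3⟩ := T3 h1
        refine ⟨κ, h2, ?_⟩
        rw [(Qn (0 + 1)).2 (T1.2 h1), h3]
        simp [lq]
      · obtain ⟨-, κ, h2, h3⟩ := T2 h1
        refine ⟨κ, h2, ?_⟩
        rw [Qv (0 + 1) (fun h4 => h1 (T1.1 h4)), h3]
        simp [lq]
    · by_cases h1 : dq θ (x (k + 1)) (y (k + 1)) = 0
      · obtain ⟨h2, -, κ, h3, h4⟩ := (hFAC F θ hθ _ _ (eqn (k + 1)) (hb0 k)).2 h1 (ha _)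
        refine ⟨κ, h3, ?_⟩
        rw [Qv _ h2, (Cn k).2 h1, h4]
        simp [lq]
      · by_cases h5 : dq θ (x (k + 1)) (-y (k + 1)) = 0
        · obtain ⟨h2, -, κ, h3, h4⟩ := (hFAC F θ hθ _ _ (eqn' (k + 1)) (hb0 k)).2 h5 (neg_ne_zero.2 (ha _))
          refine ⟨κ, h3, ?_⟩
          rw [(Qn _).2 h5, Cv k h1, h4, neg_neg]
          simp [lq]
        · obtain ⟨κ, h3, h4⟩ := (hFAC F θ hθ _ _ (eqn (k + 1)) (hb0 k)).1 h1 h5
          refine ⟨κ, h3, ?_⟩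
          rw [Qv _ h5, Cv k h1, h4]
          simp [lq]
  · -- left
    intro k a h1
    obtain ⟨h2, h3, h4⟩ := Qs k a h1
    rw [h3, h4, neg_neg]
    exact (J1 _ _ (eqn' k) h2).2
  · -- right
    intro k a h1
    rcases k with _ | k
    · obtain ⟨h2, h3, h4⟩ := Qs _ a h1
      rw [h3, h4, e0.1]
      exact (T2 (fun h5 => h2 (T1.2 h5))).1
    · have h2 : dq θ (x (k + 1)) (y (k + 1)) ≠ 0 := by
        intro h3
        rw [(Cn k).2 h3] at h1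
        exact absurd h1 (by simp)
      rw [Cv k h2, Option.some.injEq] at h1
      subst h1
      exact (J1 _ _ (eqn (k + 1)) h2).2
  · -- two
    have key : ∀ k, Q (k + 1) = none → Q (k + 2) ≠ none ∧ x (k + 1) ^ 2 = 4 * θ.1 ^ 2 * θ.2 3 := by
      intro k h1
      obtain ⟨h2, h3, -⟩ := (hFAC F θ hθ _ _ (eqn' (k + 1)) (hb0 k)).2 ((Qn _).1 h1) (neg_ne_zero.2 (ha _))
      refine ⟨?_, h3⟩
      rw [Ne, Cn k]
      rw [neg_neg] at h2
      exact h2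
    intro k h1
    obtain ⟨h2, h3⟩ := key k h1
    have h4 : Q k ≠ none ∧ x k ^ 2 = 4 * θ.1 ^ 2 * θ.2 3 := by
      rcases k with _ | k
      · refine ⟨by rw [Q0]; simp, ?_⟩
        rw [e0.1]
        exact T1.1 ((Qn _).1 h1)
      · obtain ⟨h5, h6, -⟩ := (hFAC F θ hθ _ _ (eqn (k + 1)) (hb0 k)).2 ((Cn k).1 h1) (ha _)
        exact ⟨fun h7 => h5 ((Qn _).1 h7), h6⟩
    refine ⟨h4.1, h2, ?_, h4.2⟩
    have h5 : x (k + 1) ^ 2 = x k ^ 2 := by rw [h3, h4.2]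
    rcases sq_eq_sq_iff_eq_or_eq_neg.1 h5 with h6 | h6
    · exact absurd h6.symm (hb k (k + 1) (by omega))
    · exact h6
  · -- ne
    intro k a h1 h2
    obtain ⟨h3, h4, h5⟩ := Qs _ a h1
    obtain ⟨h6, h7, h8⟩ := Qs _ a h2
    have h9 := J2 (x (k + 2)) (-y (k + 2)) (x k) (-y k) (hb0 (k + 1)) h6 h3 (by rw [← h7, h4])
      (by rw [← neg_inj, ← h8, h5])
    exact hb k (k + 2) (by omega) h9.1.symm
  · intro m X W h' hm hd
    rcases m with _ | m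
    · rw [zero_smul] at hm
      exact absurd hm.symm (Affine.Point.some_ne_zero _)
    · rw [hk m, Affine.Point.some.injEq] at hm
      obtain ⟨rfl, rfl⟩ := hm
      rcases m with _ | m
      · rw [e0.1, e0.2] at hd
        exact absurd K4 hd
      · exact Cv m hd
  · intro m X W h' hm hd
    rw [hk m, Affine.Point.some.injEq] at hm
    obtain ⟨rfl, rfl⟩ := hm
    exact Qv m hd

end Pool.Agent.Q5.ZC
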