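import Pool.Agent.Q35.ZC.Stm

/-!
# The class of a point obtained by a move
-/

set_option autoImplicit false

open Polynomial Pool.Agent.Y720.MZ Pool.Agent.Q35.ZC WeierstrassCurve

namespace Pool.Agent.Q5.ZC

theorem step : S_IND → S_SEQ → S_STEP := by
  intro hIND hSEQ F _ _ n f hf z w i u Z hw hM
  unfold MulPt at hM
  let _ : DecidableEq F := Classical.decEq F
  obtain ⟨hθ, h, hinf, m, X, W, h', hm, hD, hu, hZ⟩ := hM
  set θ : F × (Fin 4 → F) := (w, cq f z (Pi.single i 1)) with hθd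
  obtain ⟨x, Q, hS, hL, hL'⟩ := hSEQ F θ hθ h hinf
  have hq : rst f z (Pi.single i 1) = qp θ := by
    rw [rst_qpol (deg_rst (hf i) z), ← hw]
    rfl
  let δ : F × F → (((Fin n → F) × F) →₀ ℤ) ⧸ Rat f := fun s => QuotientAddGroup.mk (dl (mv z i s.1) s.2)
  have hneg : ∀ t Y, δ (t, -Y) = -δ (t, Y) := by
    intro t Y
    change (QuotientAddGroup.mk (dl (mv z i t) (-Y)) : (((Fin n → F) × F) →₀ ℤ) ⧸ Rat f) =
      -QuotientAddGroup.mk (dl (mv z i t) Y)
    rw [← QuotientAddGroup.mk_neg]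
    congr 1
    unfold dl
    rw [neg_neg, neg_sub]
  have hz : ∀ (u v : F[X]) (T : Multiset (F × F)), Zeros (qp θ) u v T → (T.map δ).sum = 0 := by
    intro u v T hT
    have h1 : (T.map δ).sum = QuotientAddGroup.mk' (Rat f) (T.map fun s => dl (mv z i s.1) s.2).sum := by
      rw [map_multiset_sum, Multiset.map_map]
      rfl
    rw [h1]
    rw [QuotientAddGroup.mk'_apply, QuotientAddGroup.eq_zero_iff]
    apply AddSubgroup.subset_closure
    left
    left
    exact ⟨z, i, u, v, T, by rw [hq]; exact hT, rfl⟩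
  have h1 : δ (u, Z) = (2 * m + 1) • δ (0, w) := by
    rcases m with k | k
    · have hk : k • (.some _ _ h : Pt (tA θ) (tB θ) (tC θ)) = .some X W h' := by
        rw [← hm, Int.ofNat_eq_natCast, natCast_zsmul]
      have hQ : Q k = some (u, Z) := by
        rw [hL k X W h' hk hD, hu, hZ]
        rfl
      rw [hIND F θ hθ x Q hS _ δ hneg hz k (u, Z) hQ]
      rw [← natCast_zsmul]
      push_cast
      rfl
    · obtain ⟨h'', hn⟩ := neg_mk h'
      have hk : (k + 1) • (.some _ _ h : Pt (tA θ) (tB θ) (tC θ)) = .some X (-W) h'' := by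
        rw [← hn, ← hm, negSucc_zsmul, neg_neg]
      have hD' : Pool.Agent.Q35.ZC.dq θ X (- -W) ≠ 0 := by
        rw [neg_neg]
        exact hD
      have hQ : Q k = some (u, -Z) := by
        rw [hL' k X (-W) h'' hk hD', neg_neg, hu, hZ]
        rfl
      have h2 := hIND F θ hθ x Q hS _ δ hneg hz k (u, -Z) hQ
      rw [hneg, neg_eq_iff_eq_neg] at h2
      rw [h2, ← natCast_zsmul, ← neg_zsmul, Int.negSucc_eq]
      have h5 : -(((2 * k + 1 : ℕ)) : ℤ) = 2 * -((k : ℤ) + 1) + 1 := by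
        push_cast
        ring
      rw [h5]
  refine ⟨m, ?_⟩
  have h2 : mv z i 0 = z := by
    funext a
    unfold mv
    rw [zero_mul, add_zero]
  have h3 : (QuotientAddGroup.mk (dl (mv z i u) Z) : (((Fin n → F) × F) →₀ ℤ) ⧸ Rat f) =
      (2 * m + 1) • QuotientAddGroup.mk (dl (mv z i 0) w) := h1
  rw [h2] at h3
  rw [← QuotientAddGroup.eq_zero_iff, QuotientAddGroup.mk_sub, h3]
  have h4 : (QuotientAddGroup.mk ((2 * m + 1) • dl z w) : (((Fin n → F) × F) →₀ ℤ) ⧸ Rat f) =
      (2 * m + 1) • QuotientAddGroup.mk (dl z w) := QuotientAddGroup.mk_zsmul _ _ _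
  rw [h4, sub_self]

end Pool.Agent.Q5.ZC
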